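import Mathlib

namespace Pool.Agent.Results.MP_f73150_nt.Disproof

/-- `IsComplete m k a`: the finite set `a` (listed increasingly) is a complete sequence in the
interval `(m, m+k]`: it lies in the interval, its terms are pairwise coprime, and every integer `n`
of the interval has `gcd(n, x) > 1` for at least one term `x`. -/
def IsComplete (m k : ℕ) (a : Finset ℕ) : Prop :=
  (∀ x ∈ a, m < x ∧ x ≤ m + k) ∧
  (∀ x ∈ a, ∀ y ∈ a, x ≠ y → Nat.gcd x y = 1) ∧
  (∀ n, m < n → n ≤ m + k → ∃ x ∈ a, 1 < Nat.gcd n x)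

/-- `F m k`: the largest length of a complete sequence in `(m, m+k]` (there are none for `m = 0`,
where the value is `0`). -/
noncomputable def F (m k : ℕ) : ℕ := sSup {l | ∃ a : Finset ℕ, IsComplete m k a ∧ a.card = l}

lemma card_le_k {m k : ℕ} {a : Finset ℕ} (h : ∀ x ∈ a, m < x ∧ x ≤ m + k) : a.card ≤ k := by
  have : a ⊆ Finset.Ioc m (m + k) := fun x hx => Finset.mem_Ioc.2 (h x hx)
  simpa using Finset.card_le_card this

lemma bdd (m k : ℕ) : BddAbove {l | ∃ a : Finset ℕ, IsComplete m k a ∧ a.card = l} := by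
  refine ⟨k, ?_⟩
  rintro l ⟨a, ha, rfl⟩
  exact card_le_k ha.1

lemma le_F {m k : ℕ} {a : Finset ℕ} (h : IsComplete m k a) : a.card ≤ F m k :=
  le_csSup (bdd m k) ⟨a, h, rfl⟩

lemma F_le {m k c : ℕ} (h : ∀ a, IsComplete m k a → a.card ≤ c) : F m k ≤ c := by
  unfold F
  by_cases hne : {l | ∃ a : Finset ℕ, IsComplete m k a ∧ a.card = l}.Nonempty
  · apply csSup_le hne
    rintro l ⟨a, ha, rfl⟩
    exact h a ha
  · rw [Set.not_nonempty_iff_eq_empty.1 hne]
    simp

/-- A pairwise coprime set in `k` consecutive integers has at most `(k+1)/2 + 1` elements. -/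
lemma card_le_half {m k : ℕ} {a : Finset ℕ} (h : ∀ x ∈ a, m < x ∧ x ≤ m + k)
    (hc : ∀ x ∈ a, ∀ y ∈ a, x ≠ y → Nat.gcd x y = 1) : a.card ≤ (k + 1) / 2 + 1 := by
  have h1 : (a.filter (fun x => x % 2 = 0)).card ≤ 1 := by
    rw [Finset.card_le_one]
    intro x hx y hy
    rw [Finset.mem_filter] at hx hy
    by_contra hne
    have := hc x hx.1 y hy.1 hne
    have h2 : 2 ∣ Nat.gcd x y := Nat.dvd_gcd (Nat.dvd_of_mod_eq_zero hx.2) (Nat.dvd_of_mod_eq_zero hy.2)
    rw [this] at h2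
    omega
  have h2 : (a.filter (fun x => ¬ x % 2 = 0)).card ≤ (k + 1) / 2 := by
    have hinj : Set.InjOn (fun x => (x - m - 1) / 2) (a.filter (fun x => ¬ x % 2 = 0)) := by
      intro x hx y hy hxy
      simp only [Finset.coe_filter, Set.mem_ofPred_eq] at hx hy
      have hx1 := h x hx.1
      have hy1 := h y hy.1
      have hx2 := hx.2
      have hy2 := hy.2
      simp only at hxy
      omega
    have := Finset.card_le_card_of_injOn (t := Finset.range ((k + 1) / 2))
      (fun x => (x - m - 1) / 2) ?_ hinj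
    · simpa using this
    · intro x hx
      simp only [Finset.coe_filter, Set.mem_ofPred_eq] at hx
      have hx1 := h x hx.1
      simp only [Finset.coe_range, Set.mem_Iio]
      omega
  have := Finset.card_filter_add_card_filter_not (s := a) (fun x => x % 2 = 0)
  omega


/-- Every pairwise coprime set in `(m, m+k]`, `m ≥ 1`, extends to a complete sequence. -/
lemma exists_complete {m k : ℕ} (hm : 1 ≤ m) {s : Finset ℕ} (h : ∀ x ∈ s, m < x ∧ x ≤ m + k)
    (hc : ∀ x ∈ s, ∀ y ∈ s, x ≠ y → Nat.gcd x y = 1) :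
    ∃ a, IsComplete m k a ∧ s.card ≤ a.card := by
  classical
  let P : Finset ℕ → Prop := fun a => (∀ x ∈ a, m < x ∧ x ≤ m + k) ∧
    (∀ x ∈ a, ∀ y ∈ a, x ≠ y → Nat.gcd x y = 1) ∧ s ⊆ a
  have hne : ((Finset.Ioc m (m + k)).powerset.filter P).Nonempty :=
    ⟨s, by
      rw [Finset.mem_filter, Finset.mem_powerset]
      exact ⟨fun x hx => Finset.mem_Ioc.2 (h x hx), h, hc, subset_rfl⟩⟩
  obtain ⟨a, ha, hmax⟩ := Finset.exists_max_image _ Finset.card hne
  rw [Finset.mem_filter, Finset.mem_powerset] at ha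
  obtain ⟨-, ha1, ha2, ha3⟩ := ha
  refine ⟨a, ⟨ha1, ha2, ?_⟩, Finset.card_le_card ha3⟩
  intro n hn1 hn2
  by_contra hcon
  push Not at hcon
  have hna : n ∉ a := by
    intro hna
    have := hcon n hna
    rw [Nat.gcd_self] at this
    omega
  have hcop : ∀ x ∈ a, Nat.gcd n x = 1 := by
    intro x hx
    have h1 := hcon x hx
    have h2 : 0 < Nat.gcd n x := Nat.gcd_pos_of_pos_left _ (by omega)
    omega
  have hins : insert n a ∈ (Finset.Ioc m (m + k)).powerset.filter P := by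
    rw [Finset.mem_filter, Finset.mem_powerset]
    have hP1 : ∀ x ∈ insert n a, m < x ∧ x ≤ m + k := by
      intro x hx
      rcases Finset.mem_insert.1 hx with rfl | hx
      · exact ⟨hn1, hn2⟩
      · exact ha1 x hx
    refine ⟨fun x hx => Finset.mem_Ioc.2 (hP1 x hx), hP1, ?_, ha3.trans (Finset.subset_insert _ _)⟩
    intro x hx y hy hxy
    rcases Finset.mem_insert.1 hx with hx' | hx' <;> rcases Finset.mem_insert.1 hy with hy' | hy'
    · exact absurd (hx'.trans hy'.symm) hxy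
    · rw [hx']; exact hcop y hy'
    · rw [hy', Nat.gcd_comm]; exact hcop x hx'
    · exact ha2 x hx' y hy' hxy
  have := hmax _ hins
  rw [Finset.card_insert_of_notMem hna] at this
  omega

lemma F_small (k : ℕ) (hk : 1 ≤ k) (hk9 : k ≤ 9) :
    ∃ a : Finset ℕ, IsComplete 4 k a ∧ a.card = min k ((k + 1) / 2 + 1) := by
  have key : ∀ k ∈ Finset.Icc 1 9, ∃ a ∈ ({5, 6, 7, 8, 9, 11, 13} : Finset ℕ).powerset,
      ((∀ x ∈ a, 4 < x ∧ x ≤ 4 + k) ∧
      (∀ x ∈ a, ∀ y ∈ a, x ≠ y → Nat.gcd x y = 1) ∧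
      (∀ n ∈ Finset.Ioc 4 (4 + k), ∃ x ∈ a, 1 < Nat.gcd n x)) ∧
      a.card = min k ((k + 1) / 2 + 1) := by
    decide +kernel
  obtain ⟨a, -, ⟨h1, h2, h3⟩, h4⟩ := key k (Finset.mem_Icc.2 ⟨hk, hk9⟩)
  exact ⟨a, ⟨h1, h2, fun n hn1 hn2 => h3 n (Finset.mem_Ioc.2 ⟨hn1, hn2⟩)⟩, h4⟩

lemma F_le_small (m k : ℕ) : F m k ≤ min k ((k + 1) / 2 + 1) :=
  F_le fun a ha => le_min (card_le_k ha.1) (card_le_half ha.1 ha.2.1)

lemma greatest_small (k : ℕ) (hk : 1 ≤ k) (hk9 : k ≤ 9) :
    IsGreatest (Set.range fun m => F m k) (min k ((k + 1) / 2 + 1)) := by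
  constructor
  · refine ⟨4, le_antisymm (F_le_small 4 k) ?_⟩
    obtain ⟨a, ha, hc⟩ := F_small k hk hk9
    rw [← hc]
    exact le_F ha
  · rintro _ ⟨m, rfl⟩
    exact F_le_small m k

lemma F_nine (t : ℕ) : F (4 + 210 * t) 9 = 6 := by
  apply le_antisymm (F_le_small _ 9)
  have h1 : ∀ x ∈ ({210 * t + 5, 210 * t + 7, 210 * t + 8, 210 * t + 9, 210 * t + 11,
      210 * t + 13} : Finset ℕ), 4 + 210 * t < x ∧ x ≤ 4 + 210 * t + 9 := by
    intro x hx
    simp only [Finset.mem_insert, Finset.mem_singleton] at hx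
    omega
  have h2 : ∀ x ∈ ({210 * t + 5, 210 * t + 7, 210 * t + 8, 210 * t + 9, 210 * t + 11,
      210 * t + 13} : Finset ℕ), ∀ y ∈ ({210 * t + 5, 210 * t + 7, 210 * t + 8, 210 * t + 9,
      210 * t + 11, 210 * t + 13} : Finset ℕ), x ≠ y → Nat.gcd x y = 1 := by
    intro x hx y hy hxy
    have hx1 := h1 x hx
    have hy1 := h1 y hy
    simp only [Finset.mem_insert, Finset.mem_singleton] at hx hy
    by_contra hne
    obtain ⟨p, hp, hpd⟩ := Nat.exists_prime_and_dvd hne
    have hpx := hpd.trans (Nat.gcd_dvd_left x y)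
    have hpy := hpd.trans (Nat.gcd_dvd_right x y)
    have hp8 : p ≤ 8 := by
      rcases lt_or_gt_of_ne hxy with h | h
      · have := Nat.le_of_dvd (by omega) (Nat.dvd_sub hpy hpx)
        omega
      · have := Nat.le_of_dvd (by omega) (Nat.dvd_sub hpx hpy)
        omega
    have hp2 := hp.two_le
    interval_cases p <;> first | (revert hp; norm_num; done) | omega
  obtain ⟨a, ha, hc⟩ := exists_complete (m := 4 + 210 * t) (k := 9) (by omega) h1 h2
  have h3 : ({210 * t + 5, 210 * t + 7, 210 * t + 8, 210 * t + 9, 210 * t + 11,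
      210 * t + 13} : Finset ℕ).card = 6 := by
    rw [Finset.card_insert_of_notMem, Finset.card_insert_of_notMem, Finset.card_insert_of_notMem,
      Finset.card_insert_of_notMem, Finset.card_insert_of_notMem, Finset.card_singleton] <;>
    simp only [Finset.mem_insert, Finset.mem_singleton] <;> omega
  rw [h3] at hc
  exact hc.trans (le_F ha)

theorem result :
    (¬ ∀ k, 1 ≤ k → IsGreatest (Set.range fun m => F m k) (Nat.primeCounting k + 1)) ∧
    (∀ k, 1 ≤ k → k ≤ 8 → IsGreatest (Set.range fun m => F m k) (Nat.primeCounting k + 1)) ∧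
    IsGreatest (Set.range fun m => F m 9) (Nat.primeCounting 9 + 2) ∧
    (∀ t : ℕ, F (4 + 210 * t) 9 = Nat.primeCounting 9 + 2) := by
  have hpi : ∀ k, 1 ≤ k → k ≤ 8 → Nat.primeCounting k + 1 = min k ((k + 1) / 2 + 1) := by
    intro k h1 h2
    interval_cases k <;> decide +kernel
  have h9 : Nat.primeCounting 9 + 2 = 6 := by decide +kernel
  refine ⟨?_, ?_, ?_, ?_⟩
  · intro h
    have h1 := (h 9 (by norm_num)).2 ⟨4, rfl⟩
    have h2 := F_nine 0
    simp only [Nat.mul_zero, Nat.add_zero] at h2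
    simp only at h1
    rw [h2] at h1
    omega
  · intro k h1 h2
    rw [hpi k h1 h2]
    exact greatest_small k h1 (by omega)
  · rw [h9]
    exact greatest_small 9 (by norm_num) le_rfl
  · intro t
    rw [h9]
    exact F_nine t

end Pool.Agent.Results.MP_f73150_nt.Disproof
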